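import Mathlib
import Pool.Agent.Lib.MP_81485b_gt.Ray

set_option autoImplicit false

/-!
# The Steklov spectrum does not detect singular points on the boundary

For every `n ≥ 3` we exhibit two compact connected flat Riemannian orbifolds with boundary which
are Steklov isospectral, one of which has singular points on its boundary while the other one has
no singular point at all (it is a Euclidean ball of radius `1/2`).
-/

namespace Pool.Agent.Results.MP_81485b_gt.SteklovBoundary

open InnerProductSpace Laplacian Metric Set Filter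
open scoped ContDiff Topology Gradient

/-- A compact connected flat Riemannian orbifold with boundary of dimension `n`, presented as a
global quotient `D / Γ`.  Here `D = {x | ρ x ≤ 0}` is a compact domain of `ℝⁿ` with smooth boundary
`{x | ρ x = 0}` (`ρ` is smooth with non-vanishing gradient on its zero set), its interior
`{x | ρ x < 0}` is connected, and `Γ` is a finite group of isometries of `ℝⁿ` mapping `D` to
itself.  The Riemannian metric is the Euclidean one. -/
structure FlatOrbifold (n : ℕ) where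
  /-- the defining function of the domain -/
  ρ : EuclideanSpace ℝ (Fin n) → ℝ
  contDiff_ρ : ContDiff ℝ ∞ ρ
  isCompact : IsCompact {x | ρ x ≤ 0}
  isConnected : IsConnected {x | ρ x < 0}
  regular : ∀ x, ρ x = 0 → ∇ ρ x ≠ 0
  /-- the finite group of isometries -/
  Γ : Subgroup (EuclideanSpace ℝ (Fin n) ≃ᵢ EuclideanSpace ℝ (Fin n))
  finite : Finite Γ
  invariant : ∀ γ ∈ Γ, ∀ x, ρ x ≤ 0 → ρ (γ x) ≤ 0

namespace FlatOrbifold

variable {n : ℕ} (Ω : FlatOrbifold n)

/-- The compact domain `D`, so that the orbifold is `D / Γ`. -/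
def dom : Set (EuclideanSpace ℝ (Fin n)) := {x | Ω.ρ x ≤ 0}

/-- The outward unit normal along the boundary of `D`. -/
noncomputable def normal (x : EuclideanSpace ℝ (Fin n)) : EuclideanSpace ℝ (Fin n) :=
  (1 / ‖∇ Ω.ρ x‖) • ∇ Ω.ρ x

/-- `u` (a function on `D`, extended by arbitrary values outside `D`) is the lift of a solution of
the Steklov problem with parameter `σ` on the orbifold `D / Γ`: it is smooth up to the boundary,
`Γ`-invariant, harmonic in the interior, and its outward normal derivative (the one-sided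
derivative at `t = 0` of `t ↦ u (x + t ν)`, `t ≤ 0`) equals `σ u` on the boundary. -/
structure IsSteklov (σ : ℝ) (u : EuclideanSpace ℝ (Fin n) → ℝ) : Prop where
  smooth : ContDiffOn ℝ ∞ u Ω.dom
  invariant : ∀ γ ∈ Ω.Γ, ∀ x ∈ Ω.dom, u (γ x) = u x
  harmonic : ∀ x, Ω.ρ x < 0 → Δ u x = 0
  boundary : ∀ x, Ω.ρ x = 0 →
    HasDerivWithinAt (fun t : ℝ => u (x + t • Ω.normal x)) (σ * u x) (Iic 0) 0

/-- The Steklov eigenspace for the parameter `σ`: the space of (lifts to `D` of) solutions of the
Steklov problem. Its dimension is the multiplicity of `σ` in the Steklov spectrum. -/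
def eigenspace (σ : ℝ) : Submodule ℝ (Ω.dom → ℝ) where
  carrier := {f | ∃ u : EuclideanSpace ℝ (Fin n) → ℝ, Ω.IsSteklov σ u ∧ ∀ x : Ω.dom, f x = u x}
  add_mem' := by
    rintro f g ⟨u, hu, hfu⟩ ⟨v, hv, hgv⟩
    have hint : ∀ x, Ω.ρ x < 0 → Ω.dom ∈ 𝓝 x := by
      intro x hx
      filter_upwards [(isOpen_lt Ω.contDiff_ρ.continuous continuous_const).mem_nhds hx] with y hy
      exact le_of_lt hy
    refine ⟨u + v, ⟨hu.smooth.add hv.smooth, ?_, ?_, ?_⟩, ?_⟩
    · intro γ hγ x hx
      simp [hu.invariant γ hγ x hx, hv.invariant γ hγ x hx]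
    · intro x hx
      have h1 : ContDiffAt ℝ 2 u x := ((hu.smooth x hx.le).contDiffAt (hint x hx)).of_le
        ENat.LEInfty.out
      have h2 : ContDiffAt ℝ 2 v x := ((hv.smooth x hx.le).contDiffAt (hint x hx)).of_le
        ENat.LEInfty.out
      rw [h1.laplacian_add h2, hu.harmonic x hx, hv.harmonic x hx, add_zero]
    · intro x hx
      have := (hu.boundary x hx).add (hv.boundary x hx)
      refine (this.congr_deriv ?_).congr_of_eventuallyEq ?_ ?_
      · simp only [Pi.add_apply]; ring
      · exact Filter.Eventually.of_forall fun t => rfl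
      · rfl
    · intro x
      simp [hfu, hgv]
  zero_mem' := by
    refine ⟨0, ⟨contDiffOn_const, by simp, ?_, ?_⟩, by simp⟩
    · intro x _
      have : (0 : EuclideanSpace ℝ (Fin n) → ℝ) = fun _ => 0 := rfl
      rw [this, laplacian_const]
      rfl
    · intro x _
      simpa using hasDerivWithinAt_const (0 : ℝ) (Iic 0) (0 : ℝ)
  smul_mem' := by
    rintro c f ⟨u, hu, hfu⟩
    have hint : ∀ x, Ω.ρ x < 0 → Ω.dom ∈ 𝓝 x := by
      intro x hx
      filter_upwards [(isOpen_lt Ω.contDiff_ρ.continuous continuous_const).mem_nhds hx] with y hy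
      exact le_of_lt hy
    refine ⟨c • u, ⟨contDiffOn_const.smul hu.smooth, ?_, ?_, ?_⟩, ?_⟩
    · intro γ hγ x hx
      simp [hu.invariant γ hγ x hx]
    · intro x hx
      have h1 : ContDiffAt ℝ 2 u x := ((hu.smooth x hx.le).contDiffAt (hint x hx)).of_le
        ENat.LEInfty.out
      rw [laplacian_smul c h1, hu.harmonic x hx, smul_zero]
    · intro x hx
      have := (hu.boundary x hx).const_mul c
      refine (this.congr_deriv ?_).congr_of_eventuallyEq ?_ ?_
      · simp only [Pi.smul_apply, smul_eq_mul]; ring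
      · exact Filter.Eventually.of_forall fun t => rfl
      · rfl
    · intro x
      simp [hfu]

/-- The orbifold `D / Γ` has a singular point (a point with non-trivial isotropy group) on its
boundary. -/
def HasBoundarySingularity : Prop := ∃ x, Ω.ρ x = 0 ∧ ∃ γ ∈ Ω.Γ, γ ≠ 1 ∧ γ x = x

end FlatOrbifold

/-- Two orbifolds are Steklov isospectral if every real number has the same (finite) multiplicity
as a Steklov eigenvalue of both. -/
def SteklovIsospectral {n m : ℕ} (Ω₁ : FlatOrbifold n) (Ω₂ : FlatOrbifold m) : Prop :=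
  ∀ σ : ℝ, FiniteDimensional ℝ (Ω₁.eigenspace σ) ∧ FiniteDimensional ℝ (Ω₂.eigenspace σ) ∧
    Module.finrank ℝ (Ω₁.eigenspace σ) = Module.finrank ℝ (Ω₂.eigenspace σ)


/-! ### Balls -/

section Ball

open Pool.Agent.Lib.MP_81485b_gt MvPolynomial

variable {n : ℕ}

/-- the defining function of the ball of radius `R` -/
noncomputable def ballFun (n : ℕ) (R : ℝ) (x : EuclideanSpace ℝ (Fin n)) : ℝ := ‖x‖ ^ 2 - R ^ 2

lemma ballFun_nonpos {R : ℝ} (hR : 0 < R) (x : EuclideanSpace ℝ (Fin n)) :
    ballFun n R x ≤ 0 ↔ ‖x‖ ≤ R := by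
  unfold ballFun
  rw [sub_nonpos]
  exact pow_le_pow_iff_left₀ (norm_nonneg x) hR.le two_ne_zero

lemma ballFun_neg {R : ℝ} (hR : 0 < R) (x : EuclideanSpace ℝ (Fin n)) :
    ballFun n R x < 0 ↔ ‖x‖ < R := by
  unfold ballFun
  rw [sub_neg]
  exact pow_lt_pow_iff_left₀ (norm_nonneg x) hR.le two_ne_zero

lemma ballFun_eq {R : ℝ} (hR : 0 < R) (x : EuclideanSpace ℝ (Fin n)) :
    ballFun n R x = 0 ↔ ‖x‖ = R := by
  unfold ballFun
  rw [sub_eq_zero]
  exact pow_left_inj₀ (norm_nonneg x) hR.le two_ne_zero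

lemma gradient_ballFun (R : ℝ) (x : EuclideanSpace ℝ (Fin n)) :
    ∇ (ballFun n R) x = (2 : ℝ) • x := by
  apply HasGradientAt.gradient
  rw [hasGradientAt_iff_hasFDerivAt]
  have h1 := (hasStrictFDerivAt_norm_sq x).hasFDerivAt
  have h2 := h1.sub_const (R ^ 2)
  refine h2.congr_fderiv ?_
  ext v
  simp

/-- The quotient of the closed ball of radius `R` by a finite group of isometries which preserve
the norm. -/
noncomputable def ballOrbifold {R : ℝ} (hR : 0 < R)
    (Γ : Subgroup (EuclideanSpace ℝ (Fin n) ≃ᵢ EuclideanSpace ℝ (Fin n))) (hΓ : Finite Γ)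
    (hinv : ∀ γ ∈ Γ, ∀ x, ‖γ x‖ = ‖x‖) : FlatOrbifold n where
  ρ := ballFun n R
  contDiff_ρ := by
    unfold ballFun
    exact (contDiff_norm_sq ℝ).sub contDiff_const
  isCompact := by
    have : {x | ballFun n R x ≤ 0} = closedBall (0 : EuclideanSpace ℝ (Fin n)) R := by
      ext x; rw [mem_closedBall_zero_iff]; exact ballFun_nonpos hR x
    rw [this]
    exact isCompact_closedBall _ _
  isConnected := by
    have : {x | ballFun n R x < 0} = ball (0 : EuclideanSpace ℝ (Fin n)) R := by
      ext x; rw [mem_ball_zero_iff]; exact ballFun_neg hR x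
    rw [this]
    exact (convex_ball _ _).isConnected ⟨0, by simpa using hR⟩
  regular := by
    intro x hx
    rw [gradient_ballFun]
    rw [ballFun_eq hR] at hx
    intro h
    rw [smul_eq_zero] at h
    rcases h with h | h
    · norm_num at h
    · rw [h, norm_zero] at hx; linarith
  Γ := Γ
  finite := hΓ
  invariant := by
    intro γ hγ x hx
    rw [ballFun_nonpos hR] at hx ⊢
    rw [hinv γ hγ]; exact hx

variable {R : ℝ} (hR : 0 < R)
    {Γ : Subgroup (EuclideanSpace ℝ (Fin n) ≃ᵢ EuclideanSpace ℝ (Fin n))} (hΓ : Finite Γ)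
    (hinv : ∀ γ ∈ Γ, ∀ x, ‖γ x‖ = ‖x‖)

lemma dom_ballOrbifold : (ballOrbifold hR Γ hΓ hinv).dom = closedBall 0 R := by
  ext x; rw [mem_closedBall_zero_iff]; exact ballFun_nonpos hR x

lemma normal_ballOrbifold {x : EuclideanSpace ℝ (Fin n)} (hx : ‖x‖ = R) :
    (ballOrbifold hR Γ hΓ hinv).normal x = (1 / R) • x := by
  have h1 : ∇ (ballOrbifold hR Γ hΓ hinv).ρ x = (2 : ℝ) • x := gradient_ballFun R x
  unfold FlatOrbifold.normal
  rw [h1, norm_smul, smul_smul, hx]
  congr 1
  simp only [Real.norm_ofNat]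
  field_simp

/-- A solution of the Steklov problem on a ball satisfies Euler's equation. -/
lemma euler_of_isSteklov (hn : 0 < n) {σ : ℝ} {u : EuclideanSpace ℝ (Fin n) → ℝ}
    (hu : (ballOrbifold hR Γ hΓ hinv).IsSteklov σ u) :
    ∀ x ∈ ball (0 : EuclideanSpace ℝ (Fin n)) R, fderiv ℝ u x x = (σ * R) * u x := by
  have hsm : ContDiffOn ℝ ∞ u (closedBall 0 R) := by
    have := hu.smooth
    rwa [dom_ballOrbifold] at this
  have hat : ∀ x ∈ ball (0 : EuclideanSpace ℝ (Fin n)) R, ContDiffAt ℝ ∞ u x := fun x hx =>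
    (hsm x (ball_subset_closedBall hx)).contDiffAt (closedBall_mem_nhds_of_mem hx)
  have hud : UniqueDiffOn ℝ (closedBall (0 : EuclideanSpace ℝ (Fin n)) R) :=
    uniqueDiffOn_convex (convex_closedBall _ _)
      (by rw [interior_closedBall _ hR.ne']; exact ⟨0, by simpa using hR⟩)
  set w : EuclideanSpace ℝ (Fin n) → ℝ :=
    fun x => fderivWithin ℝ u (closedBall 0 R) x x - (σ * R) * u x with hw
  have hwc : ContinuousOn w (closedBall 0 R) := by
    apply ContinuousOn.sub
    · exact (hsm.continuousOn_fderivWithin hud (by simp)).clm_apply continuousOn_id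
    · exact continuousOn_const.mul hsm.continuousOn
  have hin : ∀ x ∈ ball (0 : EuclideanSpace ℝ (Fin n)) R,
      fderivWithin ℝ u (closedBall 0 R) x = fderiv ℝ u x := fun x hx =>
    fderivWithin_of_mem_nhds (closedBall_mem_nhds_of_mem hx)
  have hweq : ∀ x ∈ ball (0 : EuclideanSpace ℝ (Fin n)) R,
      w =ᶠ[𝓝 x] (fun y => fderiv ℝ u y y) - (σ * R) • u := by
    intro x hx
    filter_upwards [isOpen_ball.mem_nhds hx] with y hy
    simp [hw, hin y hy]
  have hr2 : ∀ x ∈ ball (0 : EuclideanSpace ℝ (Fin n)) R,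
      ContDiffAt ℝ 2 (fun y => fderiv ℝ u y y) x := fun x hx =>
    (((hat x hx).of_le (ENat.LEInfty.out : (3 : ℕ∞ω) ≤ ∞)).fderiv_right (m := 2)
      (by norm_num)).clm_apply contDiffAt_id
  have hu2 : ∀ x ∈ ball (0 : EuclideanSpace ℝ (Fin n)) R, ContDiffAt ℝ 2 ((σ * R) • u) x :=
    fun x hx => ((hat x hx).of_le (ENat.LEInfty.out : (2 : ℕ∞ω) ≤ ∞)).const_smul (σ * R)
  have hharm : ∀ x ∈ ball (0 : EuclideanSpace ℝ (Fin n)) R, Δ u x = 0 := by
    intro x hx
    apply hu.harmonic
    exact (ballFun_neg hR x).mpr (mem_ball_zero_iff.mp hx)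
  have hw0 := max_principle hn hR hwc ?_ ?_ ?_
  · intro x hx
    have := hw0 x (ball_subset_closedBall hx)
    simp only [hw, hin x hx] at this
    linarith
  · intro x hx
    exact ((hr2 x hx).sub (hu2 x hx)).congr_of_eventuallyEq (hweq x hx)
  · intro x hx
    rw [(laplacian_congr_nhds (hweq x hx)).self_of_nhds, (hr2 x hx).laplacian_sub (hu2 x hx),
      laplacian_smul _ ((hat x hx).of_le ENat.LEInfty.out), hharm x hx,
      laplacian_radial isOpen_ball (fun y hy => (hat y hy).of_le ENat.LEInfty.out) hharm hx]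
    simp
  · intro x hx
    have hxm : x ∈ closedBall (0 : EuclideanSpace ℝ (Fin n)) R := by
      rw [mem_closedBall_zero_iff]; exact hx.le
    have hb := hu.boundary x ((ballFun_eq hR x).mpr hx)
    rw [normal_ballOrbifold hR hΓ hinv hx] at hb
    have hd : HasFDerivWithinAt u (fderivWithin ℝ u (closedBall 0 R) x) (closedBall 0 R)
        (x + (0 : ℝ) • ((1 / R) • x)) := by
      simpa using ((hsm x hxm).differentiableWithinAt (by simp)).hasFDerivWithinAt
    have hl : HasDerivWithinAt (fun t : ℝ => x + t • ((1 / R) • x)) ((1 / R) • x)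
        (Icc (-R) 0) 0 := by
      have : HasDerivAt (fun t : ℝ => x + t • ((1 / R) • x)) ((1 / R) • x) 0 := by
        simpa using ((hasDerivAt_id (0 : ℝ)).smul_const ((1 / R) • x)).const_add x
      exact this.hasDerivWithinAt
    have hmaps : MapsTo (fun t : ℝ => x + t • ((1 / R) • x)) (Icc (-R) 0) (closedBall 0 R) := by
      intro t ht
      rw [mem_closedBall_zero_iff]
      change ‖x + t • ((1 / R) • x)‖ ≤ R
      have h1 : x + t • ((1 / R) • x) = (1 + t / R) • x := by
        rw [add_smul, one_smul, smul_smul]; congr 2; ring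
      rw [h1, norm_smul, hx, Real.norm_eq_abs]
      have h2 : |1 + t / R| ≤ 1 := by
        rw [abs_le]
        have h3 : t / R ≤ 0 := div_nonpos_of_nonpos_of_nonneg ht.2 hR.le
        have h4 : -1 ≤ t / R := by
          rw [le_div_iff₀ hR]; linarith [ht.1]
        constructor <;> linarith
      calc |1 + t / R| * R ≤ 1 * R := by gcongr
        _ = R := one_mul R
    have h1 := hd.comp_hasDerivWithinAt (0 : ℝ) hl hmaps
    have h2 : HasDerivWithinAt (fun t : ℝ => u (x + t • ((1 / R) • x))) (σ * u x)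
      (Icc (-R) 0) 0 := hb.mono Icc_subset_Iic_self
    have hud0 : UniqueDiffWithinAt ℝ (Icc (-R) 0) (0 : ℝ) :=
      (uniqueDiffOn_Icc (by linarith)) 0 ⟨by linarith, le_rfl⟩
    have h3 := hud0.eq_deriv _ h1 h2
    rw [map_smul, smul_eq_mul] at h3
    have h4 : fderivWithin ℝ u (closedBall 0 R) x x = R * (σ * u x) := by
      rw [← h3]; field_simp
    simp only [hw, h4]
    ring

/-- If `σ R` is not a natural number then the eigenspace of the ball orbifold is trivial. -/
lemma eigenspace_eq_bot (hn : 0 < n) {σ : ℝ} (hσ : ∀ m : ℕ, σ * R ≠ m) :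
    (ballOrbifold hR Γ hΓ hinv).eigenspace σ = ⊥ := by
  rw [eq_bot_iff]
  rintro f ⟨u, hu, hfu⟩
  rw [Submodule.mem_bot]
  ext x
  rw [hfu x]
  have hsm : ContDiffOn ℝ ∞ u (closedBall 0 R) := by
    have := hu.smooth
    rwa [dom_ballOrbifold] at this
  have hat : ∀ x ∈ ball (0 : EuclideanSpace ℝ (Fin n)) R, ContDiffAt ℝ ∞ u x := fun x hx =>
    (hsm x (ball_subset_closedBall hx)).contDiffAt (closedBall_mem_nhds_of_mem hx)
  have hx : (x : EuclideanSpace ℝ (Fin n)) ∈ closedBall (0 : EuclideanSpace ℝ (Fin n)) R :=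
    (dom_ballOrbifold hR hΓ hinv).subset x.2
  simpa using eq_zero_of_not_nat hR hsm.continuousOn hat
    (euler_of_isSteklov hR hΓ hinv hn hu) hσ x hx

/-- The eigenspace of the ball orbifold for `σ = k / R` is the space of harmonic homogeneous
polynomials of degree `k` whose exponents satisfy the condition `S` describing `Γ`-invariance. -/
lemma exists_equiv (hn : 0 < n) {σ : ℝ} {k : ℕ} (hσ : σ * R = k) {S : (Fin n →₀ ℕ) → Prop}
    (hS : ∀ p : MvPolynomial (Fin n) ℝ, (∀ α, coeff α p ≠ 0 → α.degree = k) →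
      ((∀ γ ∈ Γ, ∀ x, ‖x‖ ≤ R → evalE p (γ x) = evalE p x) ↔ ∀ α, coeff α p ≠ 0 → S α)) :
    Nonempty (V S k ≃ₗ[ℝ] (ballOrbifold hR Γ hΓ hinv).eigenspace σ) := by
  set Ω := ballOrbifold hR Γ hΓ hinv with hΩ
  let Φ : V S k →ₗ[ℝ] (Ω.dom → ℝ) :=
    { toFun := fun p x => evalE p.1 x.1
      map_add' := by intro p q; ext x; simp
      map_smul' := by intro c p; ext x; simp [evalE] }
  have hinj : Function.Injective Φ := by
    rw [← LinearMap.ker_eq_bot, LinearMap.ker_eq_bot']
    rintro ⟨p, hp⟩ h
    have h0 : p = 0 := by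
      apply eq_zero_of_evalE_ball (fun α hα => (hp.1 α hα).1) hR
      intro x hx
      have hxd : x ∈ Ω.dom := by
        rw [hΩ, dom_ballOrbifold, mem_closedBall_zero_iff]; exact hx.le
      exact congrFun h ⟨x, hxd⟩
    simp [h0]
  have hrange : LinearMap.range Φ = Ω.eigenspace σ := by
    apply le_antisymm
    · rintro f ⟨⟨p, hp⟩, rfl⟩
      have hdeg : ∀ α, coeff α p ≠ 0 → α.degree = k := fun α hα => (hp.1 α hα).1
      refine ⟨evalE p, ⟨?_, ?_, ?_, ?_⟩, fun x => rfl⟩
      · exact ((contDiff_evalE p).of_le (by simp)).contDiffOn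
      · intro γ hγ x hx
        rw [hΩ, dom_ballOrbifold, mem_closedBall_zero_iff] at hx
        exact (hS p hdeg).mpr (fun α hα => (hp.1 α hα).2) γ hγ x hx
      · intro x _
        rw [laplacian_evalE, hp.2, evalE_zero]
      · intro x hx
        have hx' : ‖x‖ = R := (ballFun_eq hR x).mp hx
        rw [hΩ, normal_ballOrbifold hR hΓ hinv hx']
        have hd : HasFDerivAt (evalE p) (fderiv ℝ (evalE p) x) (x + (0 : ℝ) • ((1 / R) • x)) := by
          simpa using ((contDiff_evalE p).differentiable (by simp)).differentiableAt.hasFDerivAt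
        have hl : HasDerivAt (fun t : ℝ => x + t • ((1 / R) • x)) ((1 / R) • x) 0 := by
          simpa using ((hasDerivAt_id (0 : ℝ)).smul_const ((1 / R) • x)).const_add x
        have h1 := hd.comp_hasDerivAt (0 : ℝ) hl
        refine (h1.congr_deriv ?_).hasDerivWithinAt
        rw [map_smul, evalE_euler hdeg, smul_eq_mul, ← hσ]
        field_simp
    · rintro f ⟨u, hu, hfu⟩
      have hsm : ContDiffOn ℝ ∞ u (closedBall 0 R) := by
        have := hu.smooth
        rwa [hΩ, dom_ballOrbifold] at this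
      have hat : ∀ x ∈ ball (0 : EuclideanSpace ℝ (Fin n)) R, ContDiffAt ℝ ∞ u x := fun x hx =>
        (hsm x (ball_subset_closedBall hx)).contDiffAt (closedBall_mem_nhds_of_mem hx)
      obtain ⟨p, hdeg, hpu⟩ := exists_poly hR hsm.continuousOn hat
        (euler_of_isSteklov hR hΓ hinv hn hu) hσ
      have hlap : lap p = 0 := by
        apply eq_zero_of_evalE_ball (k := k - 2) _ hR
        · intro x hx
          have hxb : x ∈ ball (0 : EuclideanSpace ℝ (Fin n)) R := mem_ball_zero_iff.mpr hx
          rw [← laplacian_evalE]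
          have h1 : u =ᶠ[𝓝 x] evalE p := by
            filter_upwards [closedBall_mem_nhds_of_mem hxb] with y hy
            exact hpu y hy
          rw [← (laplacian_congr_nhds h1).self_of_nhds]
          exact hu.harmonic x ((ballFun_neg hR x).mpr hx)
        · intro m hm
          rw [coeff_lap] at hm
          obtain ⟨i, _, hi⟩ := Finset.exists_ne_zero_of_sum_ne_zero hm
          have h1 : coeff (m + Finsupp.single i 2) p ≠ 0 := fun h0 => hi (by rw [h0]; simp)
          have h2 := hdeg _ h1
          rw [degree_add_single] at h2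
          omega
      have hSp : ∀ α, coeff α p ≠ 0 → S α := by
        apply (hS p hdeg).mp
        intro γ hγ x hx
        have hx1 : x ∈ closedBall (0 : EuclideanSpace ℝ (Fin n)) R :=
          mem_closedBall_zero_iff.mpr hx
        have hx2 : γ x ∈ closedBall (0 : EuclideanSpace ℝ (Fin n)) R := by
          rw [mem_closedBall_zero_iff, hinv γ hγ]; exact hx
        rw [← hpu x hx1, ← hpu _ hx2]
        apply hu.invariant γ hγ
        rw [hΩ, dom_ballOrbifold]; exact hx1
      refine ⟨⟨p, fun α hα => ⟨hdeg α hα, hSp α hα⟩, hlap⟩, ?_⟩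
      ext x
      rw [hfu x]
      exact (hpu _ ((dom_ballOrbifold hR hΓ hinv).subset x.2)).symm
  exact ⟨(LinearEquiv.ofInjective Φ hinj).trans (LinearEquiv.ofEq _ _ hrange)⟩

/-! ### The group of sign changes -/

/-- The isometry `x_i ↦ ε_i x_i`. -/
noncomputable def signIsom (ε : Fin n → ℤˣ) :
    EuclideanSpace ℝ (Fin n) ≃ᵢ EuclideanSpace ℝ (Fin n) where
  toFun x := WithLp.toLp 2 fun i => ((ε i : ℤ) : ℝ) * x i
  invFun x := WithLp.toLp 2 fun i => ((ε i : ℤ) : ℝ) * x i
  left_inv x := by
    ext i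
    rcases Int.units_eq_one_or (ε i) with h | h <;> simp [h]
  right_inv x := by
    ext i
    rcases Int.units_eq_one_or (ε i) with h | h <;> simp [h]
  isometry_toFun := by
    apply Isometry.of_dist_eq
    intro x y
    rw [EuclideanSpace.dist_eq, EuclideanSpace.dist_eq]
    congr 1
    refine Finset.sum_congr rfl fun i _ => ?_
    rcases Int.units_eq_one_or (ε i) with h | h
    · simp [h]
    · simp only [h, Real.dist_eq]
      push_cast
      rw [show (-1 : ℝ) * x i - -1 * y i = -(x i - y i) by ring, abs_neg]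

lemma signIsom_apply (ε : Fin n → ℤˣ) (x : EuclideanSpace ℝ (Fin n)) (i : Fin n) :
    signIsom ε x i = ((ε i : ℤ) : ℝ) * x i := rfl

/-- The group of all sign changes `x_i ↦ ε_i x_i` with `ε_a = ε_b`. -/
def signGroup (a b : Fin n) : Subgroup (EuclideanSpace ℝ (Fin n) ≃ᵢ EuclideanSpace ℝ (Fin n)) where
  carrier := {γ | ∃ ε : Fin n → ℤˣ, ε a = ε b ∧ ∀ x i, γ x i = ((ε i : ℤ) : ℝ) * x i}
  mul_mem' := by
    rintro γ₁ γ₂ ⟨ε₁, h₁, h₁'⟩ ⟨ε₂, h₂, h₂'⟩
    refine ⟨ε₁ * ε₂, by simp [h₁, h₂], fun x i => ?_⟩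
    have : (γ₁ * γ₂) x = γ₁ (γ₂ x) := rfl
    rw [this, h₁', h₂']
    simp only [Pi.mul_apply, Units.val_mul]
    push_cast
    ring
  one_mem' := ⟨1, rfl, fun x i => by
    have : (1 : EuclideanSpace ℝ (Fin n) ≃ᵢ EuclideanSpace ℝ (Fin n)) x = x := rfl
    rw [this]; simp⟩
  inv_mem' := by
    rintro γ ⟨ε, h, h'⟩
    refine ⟨ε, h, fun x i => ?_⟩
    have h1 : γ (γ⁻¹ x) = x := γ.apply_symm_apply x
    have h2 := h' (γ⁻¹ x) i
    rw [h1] at h2
    rw [h2]
    rcases Int.units_eq_one_or (ε i) with h3 | h3 <;> simp [h3]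

lemma signIsom_mem {a b : Fin n} {ε : Fin n → ℤˣ} (h : ε a = ε b) :
    signIsom ε ∈ signGroup a b := ⟨ε, h, fun x i => signIsom_apply ε x i⟩

lemma norm_of_mem_signGroup {a b : Fin n} :
    ∀ γ ∈ signGroup a b, ∀ x, ‖γ x‖ = ‖x‖ := by
  rintro γ ⟨ε, _, h⟩ x
  rw [EuclideanSpace.norm_eq, EuclideanSpace.norm_eq]
  congr 1
  refine Finset.sum_congr rfl fun i _ => ?_
  rw [h]
  rcases Int.units_eq_one_or (ε i) with h3 | h3 <;> simp [h3]

lemma finite_signGroup (a b : Fin n) : Finite (signGroup a b) := by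
  classical
  let F : signGroup a b → (Fin n → ℤˣ) := fun γ => γ.2.choose
  have hF : ∀ γ : signGroup a b, ∀ x i, γ.1 x i = ((F γ i : ℤ) : ℝ) * x i := fun γ =>
    γ.2.choose_spec.2
  apply Finite.of_injective F
  intro γ₁ γ₂ h
  apply Subtype.ext
  apply IsometryEquiv.ext
  intro x
  ext i
  rw [hF, hF, h]

/-- The exponents of the monomials invariant under `signGroup a b`. -/
def parity (a b : Fin n) (α : Fin n →₀ ℕ) : Prop :=
  Even (α a + α b) ∧ ∀ i, i ≠ a → i ≠ b → Even (α i)

lemma parity_inv2 (a b : Fin n) : Inv2 (parity a b) := by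
  intro α i
  unfold parity
  have h : ∀ j, Even ((α + (Finsupp.single i 2 : Fin n →₀ ℕ)) j) ↔ Even (α j) := by
    intro j
    rw [Finsupp.add_apply, Nat.even_add]
    have : Even ((Finsupp.single i 2 : Fin n →₀ ℕ) j) := by
      rw [Finsupp.single_apply]; split_ifs <;> simp
    simp [this]
  rw [Nat.even_add, Nat.even_add, h a, h b]
  simp only [h]

/-- The sign character of a monomial. -/
noncomputable def sgn (ε : Fin n → ℤˣ) (α : Fin n →₀ ℕ) : ℝ := ∏ i, ((ε i : ℤ) : ℝ) ^ α i

lemma evalE_sign (p : MvPolynomial (Fin n) ℝ) (ε : Fin n → ℤˣ)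
    {x y : EuclideanSpace ℝ (Fin n)} (h : ∀ i, y i = ((ε i : ℤ) : ℝ) * x i) :
    evalE p y = ∑ α ∈ p.support, coeff α p * sgn ε α * ∏ i, x i ^ α i := by
  unfold evalE sgn
  rw [eval_eq']
  refine Finset.sum_congr rfl fun α _ => ?_
  rw [mul_assoc, ← Finset.prod_mul_distrib]
  congr 1
  refine Finset.prod_congr rfl fun i _ => ?_
  rw [h, mul_pow]

lemma parity_iff {a b : Fin n} (hab : a ≠ b) (α : Fin n →₀ ℕ) :
    parity a b α ↔ ∀ ε : Fin n → ℤˣ, ε a = ε b → sgn ε α = 1 := by
  constructor
  · rintro ⟨h1, h2⟩ ε hε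
    unfold sgn
    rw [Finset.prod_eq_mul a b hab]
    · rw [hε, ← pow_add]
      rcases Int.units_eq_one_or (ε b) with h3 | h3
      · simp [h3]
      · rw [h3]; simpa using h1.neg_one_pow
    · intro i _ hi
      rcases Int.units_eq_one_or (ε i) with h3 | h3
      · simp [h3]
      · rw [h3]; simpa using (h2 i hi.1 hi.2).neg_one_pow
    · simp
    · simp
  · intro h
    have hneg : ∀ m : ℕ, (-1 : ℝ) ^ m = 1 → Even m := by
      intro m hm
      exact (neg_one_pow_eq_one_iff_even (by norm_num)).mp hm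
    constructor
    · have h1 := h (fun i => if i = a ∨ i = b then -1 else 1) (by simp)
      unfold sgn at h1
      rw [Finset.prod_eq_mul a b hab] at h1
      · apply hneg
        rw [pow_add]
        simpa using h1
      · intro i _ hi
        simp [hi.1, hi.2]
      · simp
      · simp
    · intro i hia hib
      have h1 := h (fun j => if j = i then -1 else 1) (by simp [Ne.symm hia, Ne.symm hib])
      unfold sgn at h1
      rw [Finset.prod_eq_single i] at h1
      · apply hneg
        simpa using h1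
      · intro j _ hj
        simp [hj]
      · simp

lemma sign_invariant_iff {a b : Fin n} (hab : a ≠ b) {R : ℝ} (hR : 0 < R) (k : ℕ)
    (p : MvPolynomial (Fin n) ℝ) (hp : ∀ α, coeff α p ≠ 0 → α.degree = k) :
    (∀ γ ∈ signGroup a b, ∀ x, ‖x‖ ≤ R → evalE p (γ x) = evalE p x) ↔
      ∀ α, coeff α p ≠ 0 → parity a b α := by
  constructor
  · intro h α hα
    rw [parity_iff hab]
    intro ε hε
    let q : MvPolynomial (Fin n) ℝ := ∑ β ∈ p.support, monomial β (coeff β p * (sgn ε β - 1))
    have hq : ∀ β, coeff β q = coeff β p * (sgn ε β - 1) := by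
      intro β
      simp only [q, coeff_sum, coeff_monomial]
      rw [Finset.sum_ite_eq' p.support β]
      split_ifs with h'
      · rfl
      · rw [notMem_support_iff.mp h']; simp
    have hq0 : q = 0 := by
      apply eq_zero_of_evalE_ball (k := k) _ hR
      · intro x hx
        have h1 := h _ (signIsom_mem hε) x hx.le
        rw [evalE_sign p ε (fun i => signIsom_apply ε x i)] at h1
        have h2 : evalE p x = ∑ α ∈ p.support, coeff α p * ∏ i, x i ^ α i := by
          unfold evalE; rw [eval_eq']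
        rw [h2, ← sub_eq_zero, ← Finset.sum_sub_distrib] at h1
        unfold evalE
        simp only [q, map_sum, eval_monomial]
        rw [← h1]
        refine Finset.sum_congr rfl fun β _ => ?_
        rw [Finsupp.prod_fintype _ _ (by simp)]
        ring
      · intro β hβ
        apply hp
        intro h0
        apply hβ
        rw [hq, h0, zero_mul]
    have h3 := hq α
    rw [hq0, coeff_zero] at h3
    have h4 := (mul_eq_zero.mp h3.symm).resolve_left hα
    linarith
  · rintro h γ ⟨ε, hε, hγ⟩ x _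
    rw [evalE_sign p ε (hγ x)]
    unfold evalE
    rw [eval_eq']
    refine Finset.sum_congr rfl fun α hα => ?_
    rw [(parity_iff hab α).mp (h α (mem_support_iff.mp hα)) ε hε, mul_one]

lemma bot_invariant_iff {R : ℝ} (k : ℕ) (p : MvPolynomial (Fin n) ℝ)
    (_ : ∀ α, coeff α p ≠ 0 → α.degree = k) :
    (∀ γ ∈ (⊥ : Subgroup (EuclideanSpace ℝ (Fin n) ≃ᵢ EuclideanSpace ℝ (Fin n))),
      ∀ x, ‖x‖ ≤ R → evalE p (γ x) = evalE p x) ↔
      ∀ α, coeff α p ≠ 0 → (fun _ : Fin n →₀ ℕ => True) α := by
  refine ⟨fun _ _ _ => trivial, ?_⟩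
  intro _ γ hγ x _
  rw [Subgroup.mem_bot] at hγ
  rw [hγ]
  rfl

/-! ### The bijection between the index sets -/

/-- The map on exponents. -/
noncomputable def T (a b c : Fin n) (β : Fin n →₀ ℕ) : Fin n →₀ ℕ :=
  Finsupp.equivFunOnFinite.symm fun i =>
    if i = a ∨ i = b then 2 * β i + β c else if i = c then 0 else 2 * β i

lemma T_apply (a b c : Fin n) (β : Fin n →₀ ℕ) (i : Fin n) :
    T a b c β i = if i = a ∨ i = b then 2 * β i + β c else if i = c then 0 else 2 * β i := rfl

lemma degree_T {a b c : Fin n} (hab : a ≠ b) (hac : a ≠ c) (hbc : b ≠ c) (β : Fin n →₀ ℕ) :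
    (T a b c β).degree = 2 * β.degree := by
  have h : T a b c β + Finsupp.single c (2 * β c) =
      2 • β + Finsupp.single a (β c) + Finsupp.single b (β c) := by
    ext i
    simp only [Finsupp.add_apply, T_apply, Finsupp.smul_apply, smul_eq_mul, Finsupp.single_apply]
    by_cases h1 : i = a
    · subst h1; simp [hab, hab.symm, hac.symm]
    · by_cases h2 : i = b
      · subst h2; simp [hab, hbc.symm]
      · by_cases h3 : i = c
        · subst h3; simp [hac, hbc, hac.symm, hbc.symm]
        · simp [h1, h2, h3, Ne.symm h1, Ne.symm h2, Ne.symm h3]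
  have h2 := congrArg Finsupp.degree h
  simp only [map_add, Finsupp.degree_single, map_nsmul, smul_eq_mul] at h2
  omega

lemma exists_idx_equiv {a b c : Fin n} (hab : a ≠ b) (hac : a ≠ c) (hbc : b ≠ c) (j : ℕ) :
    Nonempty (Idx (fun _ => True) j c ≃ Idx (parity a b) (2 * j) c) := by
  let F : Idx (fun _ => True) j c → Idx (parity a b) (2 * j) c := fun β =>
    ⟨T a b c β.1, by rw [degree_T hab hac hbc, β.2.1], by
      constructor
      · rw [T_apply, T_apply]
        simp only [true_or, or_true, if_true]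
        exact ⟨β.1 a + β.1 b + β.1 c, by ring⟩
      · intro i hia hib
        rw [T_apply]
        simp only [hia, hib, or_self, if_false]
        split_ifs <;> simp, by
      rw [T_apply]; simp [hac.symm, hbc.symm]⟩
  refine ⟨Equiv.ofBijective F ⟨?_, ?_⟩⟩
  · intro β₁ β₂ h
    have h1 : T a b c β₁.1 = T a b c β₂.1 := congrArg Subtype.val h
    have h2 : ∀ i, T a b c β₁.1 i = T a b c β₂.1 i := fun i => by rw [h1]
    simp only [T_apply] at h2
    have ha := h2 a
    simp only [true_or, if_true] at ha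
    have hc1 := β₁.2.2.2
    have hc2 := β₂.2.2.2
    have hc : β₁.1 c = β₂.1 c := by omega
    apply Subtype.ext
    ext i
    by_cases hi : i = c
    · rw [hi, hc]
    · have := h2 i
      by_cases h3 : i = a ∨ i = b
      · simp only [h3, if_true] at this; omega
      · simp only [h3, if_false, hi] at this; omega
  · rintro ⟨α, h1, ⟨h2, h3⟩, h4⟩
    have hc0 : α c = 0 := by
      have := h3 c hac.symm hbc.symm
      rcases this with ⟨r, hr⟩
      omega
    let β : Fin n →₀ ℕ := Finsupp.equivFunOnFinite.symm fun i =>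
      if i = c then α a % 2 else α i / 2
    have hβ : ∀ i, β i = if i = c then α a % 2 else α i / 2 := fun i => rfl
    have hT : T a b c β = α := by
      ext i
      rw [T_apply]
      simp only [hβ, if_true]
      obtain ⟨r, hr⟩ := h2
      by_cases h5 : i = a ∨ i = b
      · rw [if_pos h5]
        rcases h5 with h5 | h5
        · rw [h5, if_neg hac]; omega
        · rw [h5, if_neg hbc]; omega
      · rw [if_neg h5]
        push Not at h5
        by_cases h6 : i = c
        · rw [if_pos h6, h6, hc0]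
        · rw [if_neg h6, if_neg h6]
          obtain ⟨r, hr⟩ := h3 i h5.1 h5.2
          omega
    have hdeg : β.degree = j := by
      have := degree_T hab hac hbc β
      rw [hT, h1] at this
      omega
    refine ⟨⟨β, hdeg, trivial, ?_⟩, ?_⟩
    · rw [hβ, if_pos rfl]; omega
    · apply Subtype.ext
      exact hT

lemma finite_idx (S : (Fin n →₀ ℕ) → Prop) (k : ℕ) (c : Fin n) : Finite (Idx S k c) :=
  ((Finsupp.finite_of_degree_eq (σ := Fin n) k).subset fun _ h => h.1).to_subtype

lemma isEmpty_idx_odd {a b c : Fin n} (hab : a ≠ b) {k : ℕ} (hk : Odd k) :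
    IsEmpty (Idx (parity a b) k c) := by
  constructor
  rintro ⟨α, h1, ⟨h2, h3⟩, _⟩
  have : Even α.degree := by
    rw [Finsupp.degree_eq_sum, ← Finset.add_sum_erase _ _ (Finset.mem_univ a),
      ← Finset.add_sum_erase _ _ (Finset.mem_erase.mpr ⟨hab.symm, Finset.mem_univ b⟩), ← add_assoc]
    apply h2.add
    apply Finset.even_sum
    intro i hi
    rw [Finset.mem_erase, Finset.mem_erase] at hi
    exact h3 i hi.2.1 hi.1
  rw [h1] at this
  exact (Nat.not_even_iff_odd.mpr hk) this

end Ball

open Pool.Agent.Lib.MP_81485b_gt in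
/-- **The Steklov spectrum does not detect singular points on the boundary.**  In every dimension
`n ≥ 3` there are two Steklov isospectral compact connected flat Riemannian orbifolds with
boundary, the first having a singular point on its boundary and the second having none.
The first one is a quotient of the closed unit ball and the second one is the closed ball of
radius `1/2` (so it is even a manifold). -/
theorem result (n : ℕ) (hn : 3 ≤ n) :
    ∃ Ω₁ Ω₂ : FlatOrbifold n, SteklovIsospectral Ω₁ Ω₂ ∧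
      Ω₁.HasBoundarySingularity ∧ ¬ Ω₂.HasBoundarySingularity ∧
      Ω₁.dom = closedBall 0 1 ∧ Ω₂.dom = closedBall 0 (1 / 2) ∧ Ω₂.Γ = ⊥ := by
  have hn0 : 0 < n := by omega
  let a : Fin n := ⟨0, by omega⟩
  let b : Fin n := ⟨1, by omega⟩
  let c : Fin n := ⟨2, by omega⟩
  have hab : a ≠ b := by simp [a, b]
  have hac : a ≠ c := by simp [a, c]
  have hbc : b ≠ c := by simp [b, c]
  have h1 : (0 : ℝ) < 1 := one_pos
  have h2 : (0 : ℝ) < 1 / 2 := by norm_num
  have hbotinv : ∀ γ ∈ (⊥ : Subgroup (EuclideanSpace ℝ (Fin n) ≃ᵢ EuclideanSpace ℝ (Fin n))),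
      ∀ x, ‖γ x‖ = ‖x‖ := by
    intro γ hγ x
    rw [Subgroup.mem_bot] at hγ
    rw [hγ]; rfl
  let Ω₁ := ballOrbifold h1 (signGroup a b) (finite_signGroup a b) norm_of_mem_signGroup
  let Ω₂ := ballOrbifold (n := n) h2 ⊥ inferInstance hbotinv
  refine ⟨Ω₁, Ω₂, ?_, ?_, ?_, dom_ballOrbifold h1 _ _, dom_ballOrbifold h2 _ _, rfl⟩
  · intro σ
    have hfin1 : ∀ k, Finite (Idx (parity a b) k c) := fun k => finite_idx _ k c
    have hfin2 : ∀ k, Finite (Idx (fun _ => True) k c) := fun k => finite_idx _ k c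
    by_cases hσ : ∃ k : ℕ, σ = k
    · obtain ⟨k, hk⟩ := hσ
      obtain ⟨e1⟩ := exists_equiv h1 (finite_signGroup a b) norm_of_mem_signGroup hn0
        (σ := σ) (k := k) (by rw [hk, mul_one]) (S := parity a b)
        (fun p hp => sign_invariant_iff hab h1 k p hp)
      have e2 := e1.symm.trans (equivIdx (parity_inv2 a b) k c)
      have hfd1 : FiniteDimensional ℝ (Ω₁.eigenspace σ) := e2.symm.finiteDimensional
      have hr1 : Module.finrank ℝ (Ω₁.eigenspace σ) = Nat.card (Idx (parity a b) k c) := by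
        have := Fintype.ofFinite (Idx (parity a b) k c)
        rw [e2.finrank_eq, Module.finrank_fintype_fun_eq_card, Nat.card_eq_fintype_card]
      rcases Nat.even_or_odd' k with ⟨j, hj | hj⟩
      · obtain ⟨e3⟩ := exists_equiv (n := n) h2 (Γ := ⊥) inferInstance hbotinv hn0
          (σ := σ) (k := j) (by rw [hk, hj]; push_cast; ring) (S := fun _ => True)
          (fun p hp => bot_invariant_iff j p hp)
        have e4 := e3.symm.trans (equivIdx (S := fun _ => True) (fun _ _ => Iff.rfl) j c)
        have hfd2 : FiniteDimensional ℝ (Ω₂.eigenspace σ) := e4.symm.finiteDimensional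
        have hr2 : Module.finrank ℝ (Ω₂.eigenspace σ) = Nat.card (Idx (fun _ => True) j c) := by
          have := Fintype.ofFinite (Idx (fun _ : Fin n →₀ ℕ => True) j c)
          rw [e4.finrank_eq, Module.finrank_fintype_fun_eq_card, Nat.card_eq_fintype_card]
        refine ⟨hfd1, hfd2, ?_⟩
        obtain ⟨e5⟩ := exists_idx_equiv hab hac hbc j
        rw [hr1, hr2, hj]
        exact (Nat.card_congr e5).symm
      · have hbot : Ω₂.eigenspace σ = ⊥ := by
          apply eigenspace_eq_bot h2 inferInstance hbotinv hn0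
          intro m hm
          rw [hk, hj] at hm
          have h3 : ((2 * j + 1 : ℕ) : ℝ) = ((2 * m : ℕ) : ℝ) := by
            push_cast at hm ⊢; linarith
          have h4 : 2 * j + 1 = 2 * m := by exact_mod_cast h3
          omega
        have := isEmpty_idx_odd (c := c) hab (k := k) ⟨j, hj⟩
        refine ⟨hfd1, by rw [hbot]; infer_instance, ?_⟩
        rw [hr1, hbot, finrank_bot, Nat.card_of_isEmpty]
    · push Not at hσ
      have hbot1 : Ω₁.eigenspace σ = ⊥ := by
        apply eigenspace_eq_bot h1 (finite_signGroup a b) norm_of_mem_signGroup hn0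
        intro m hm
        exact hσ m (by rw [← hm, mul_one])
      have hbot2 : Ω₂.eigenspace σ = ⊥ := by
        apply eigenspace_eq_bot h2 inferInstance hbotinv hn0
        intro m hm
        exact hσ (2 * m) (by push_cast; rw [← hm]; ring)
      refine ⟨by rw [hbot1]; infer_instance, by rw [hbot2]; infer_instance, ?_⟩
      rw [hbot1, hbot2, finrank_bot, finrank_bot]
  · -- the first orbifold has a singular boundary point
    refine ⟨EuclideanSpace.single a 1, ?_, signIsom (fun i => if i = c then -1 else 1), ?_, ?_, ?_⟩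
    · exact (ballFun_eq h1 _).mpr (by simp)
    · exact signIsom_mem (by simp [hac, hbc])
    · intro h
      have h3 : signIsom (fun i => if i = c then -1 else 1) (EuclideanSpace.single c (1 : ℝ)) =
          EuclideanSpace.single c (1 : ℝ) := by rw [h]; rfl
      have h4 := congrArg (fun x : EuclideanSpace ℝ (Fin n) => x c) h3
      simp only [signIsom_apply, if_true] at h4
      simp at h4
      norm_num at h4
    · ext i
      rw [signIsom_apply]
      by_cases hi : i = c
      · simp [hi, hac.symm]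
      · simp [hi]
  · rintro ⟨x, _, γ, hγ, hne, _⟩
    exact hne (Subgroup.mem_bot.mp hγ)

end Pool.Agent.Results.MP_81485b_gt.SteklovBoundary
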